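import Pool.Agent.TH518.CW.TwoB
import Pool.Agent.TH518.CW.Ker
import Pool.Agent.TH518.CW.TwoA

/-! Eleven and thirteen points, degrees divisible by three: the flattened set without its apex. -/

set_option autoImplicit false

namespace Pool.Agent.X157.E

open Pool.Agent.TH716.CF Pool.Agent.TH518.CW

section
variable {q v n : ℕ} {K σ : ℝ}

/-- the flattened set minus its apex is empty for `n` points of multiplicity `m`, in the window -/
theorem rows_apex (h : Num2 q v n K σ) {d m : ℕ} (hlo : σ * m ≤ d)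
    (hT : σ * d - (n - 3 * σ) / 2 < (n : ℝ) * m) (k : ℕ) {a g a' g' : ℤ}
    (hm : ((a, g) : ℤ × ℤ) ∈ FlS (HH q v K d)) (hm' : ((a', g') : ℤ × ℤ) ∈ FlS (HH q v K d))
    (hne : ((a, g) : ℤ × ℤ) ≠ (2 * (d : ℤ), (m : ℤ)))
    (hk : (k : ℤ) ≤ g) (hk' : (k : ℤ) ≤ g') : a' - a < ((n * (m - k) : ℕ) : ℤ) := by
  have hσ3 := h.s3
  have hσ : 0 < σ := by linarith
  have hLs : K + v = (3 + σ) / 2 * σ := by
    have hL : K + v = (3 * σ + n) / 2 := by linarith [h.kk, h.vv]
    rw [hL, ← h.sg]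
    ring
  have hv2 : (v : ℝ) ≤ 2 := by
    have h1 : q * v = 2 := h.num.hqv
    have h2 : v ≤ 2 := Nat.le_of_dvd (by norm_num) ⟨q, by rw [mul_comm]; exact h1.symm⟩
    exact_mod_cast h2
  have hL9 : 9 < K + v := by
    have := h.num.hK
    have h3 : (0 : ℝ) ≤ v := Nat.cast_nonneg v
    linarith
  obtain ⟨h0, h2⟩ := mem_end' h hm'
  obtain ⟨h1, h1'⟩ := mem_end' h hm
  -- the height over `m`
  have hδ : σ * (d - σ * m) < (n - 3 * σ) / 2 := by
    have e : σ * (σ * m) = n * m := by rw [← h.sg]; ring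
    linarith
  have hδ2 : (d : ℝ) - σ * m < (σ - 3) / 2 := by
    have e : (n - 3 * σ) / 2 = σ * ((σ - 3) / 2) := by rw [← h.sg]; ring
    rw [e] at hδ
    exact lt_of_mul_lt_mul_left hδ hσ.le
  have hym : yy v K d m < 1 := by
    rw [h.yy_eq]
    have e : (3 + σ) / 2 * (d - σ * m) < (3 + σ) / 2 * ((σ - 3) / 2) :=
      mul_lt_mul_of_pos_left hδ2 (by linarith)
    have e2 : (3 + σ) / 2 * ((σ - 3) / 2) = (n - 9) / 4 := by rw [← h.sg]; ring
    have := h.vv
    linarith
  rcases Nat.lt_or_ge k m with hkm | hkm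
  · -- lower rows
    have hkR : (k : ℝ) ≤ g := by exact_mod_cast hk
    have hkR' : (k : ℝ) ≤ g' := by exact_mod_cast hk'
    have h3 := h1.trans (yy_anti h (d := d) hkR)
    have h5 := h.sum d k
    have hkm1 : (k : ℝ) + 1 ≤ m := by exact_mod_cast hkm
    have hz : 0 ≤ zz q v K d k := by
      unfold zz
      refine div_nonneg ?_ h.den.le
      rw [h.yy_eq, hLs]
      have e : σ * ((k : ℝ) + 1) ≤ σ * m := mul_le_mul_of_nonneg_left hkm1 hσ.le
      have e2 : (3 + σ) / 2 * σ ≤ (3 + σ) / 2 * (d - σ * k) :=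
        mul_le_mul_of_nonneg_left (by linarith) (by linarith)
      linarith
    have h7 : ((a' - a : ℤ) : ℝ) < (((n * (m - k) : ℕ) : ℤ) : ℝ) := by
      push_cast [Nat.cast_sub hkm.le]
      rw [mul_sub]
      rcases h2 with h2 | ⟨_, rfl⟩
      · have h4 := h2.trans (zz_anti h (d := d) hkR')
        push_cast at h3 h4
        linarith
      · push_cast at h3 ⊢
        linarith
    exact_mod_cast h7
  · -- upper rows: only the apex
    exfalso
    have hmg : (m : ℝ) ≤ g := by
      have : (m : ℤ) ≤ g := le_trans (by exact_mod_cast hkm) hk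
      exact_mod_cast this
    have h3 := h1.trans (yy_anti h (d := d) hmg)
    have h4 : (2 * (d : ℤ) - a : ℤ) < 1 := by
      have : ((2 * (d : ℤ) - a : ℤ) : ℝ) < ((1 : ℤ) : ℝ) := by push_cast at h3 ⊢; linarith
      exact_mod_cast this
    rcases h1' with h5 | ⟨_, h5⟩
    · have h6 := h5.trans (zz_anti h (d := d) hmg)
      have h7 : zz q v K d m < 0 := by
        unfold zz
        exact div_neg_of_neg_of_pos (by linarith) h.den
      have h8 : (a - 2 * (d : ℤ) : ℤ) < 0 := by
        have : ((a - 2 * (d : ℤ) : ℤ) : ℝ) < ((0 : ℤ) : ℝ) := by push_cast at h6 ⊢; linarith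
        exact_mod_cast this
      omega
    · apply hne
      rw [h5, Prod.mk.injEq]
      refine ⟨rfl, ?_⟩
      rw [h5] at h1
      rw [h.yy_eq] at h1
      push_cast at h1
      have h6 : 0 ≤ (3 + σ) / 2 * (d - σ * g) := by linarith
      have h7 : 0 ≤ (d : ℝ) - σ * g := nonneg_of_mul_nonneg_right h6 (by linarith)
      have h8 : σ * (g : ℝ) < σ * (m + 1) := by
        have : σ * ((m : ℝ) + 1) = σ * m + σ := by ring
        linarith
      have h9 : (g : ℝ) < m + 1 := lt_of_mul_lt_mul_left h8 hσ.le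
      have h10 : g < (m : ℤ) + 1 := by exact_mod_cast h9
      have h11 : (m : ℤ) ≤ g := by exact_mod_cast hmg
      omega

/-- adding one simple point makes the system empty, in the window -/
theorem emp_one (h : Num2 q v n K σ) {p : ℕ} (hp : p = 0 ∨ p.Prime) {d m : ℕ} (hlo : σ * m ≤ d)
    (hT : σ * d - (n - 3 * σ) / 2 < (n : ℝ) * m) :
    EmpG p (fun o : Option (Fin 1) => o.elim n fun _ => 1) (fun o => o.elim m fun _ => 1)
      (FlS (HH q v K d)) := by
  classical
  have hfin := (hh_card h.num (d := d)).1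
  refine EmpG_add hp hfin (W := hfin.toFinset.erase (2 * (d : ℤ), (m : ℤ))) ?_ ?_ ?_ ?_
  · intro q' hq
    exact hfin.mem_toFinset.1 (Finset.mem_of_mem_erase hq)
  · rw [Set.ncard_eq_toFinset_card _ hfin]
    have := Finset.pred_card_le_card_erase (s := hfin.toFinset) (a := ((2 * (d : ℤ), (m : ℤ)) : ℤ × ℤ))
    omega
  · intro q' hq
    exact (hfin.mem_toFinset.1 (Finset.mem_of_mem_erase hq)).1
  · rintro k ⟨a, g⟩ hq ⟨a', g'⟩ hq' hk hk'
    exact rows_apex h hlo hT k (hfin.mem_toFinset.1 (Finset.mem_of_mem_erase hq))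
      (hfin.mem_toFinset.1 (Finset.mem_of_mem_erase hq')) (Finset.ne_of_mem_erase hq) hk hk'

end

end Pool.Agent.X157.E
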