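import Pool.Agent.TH545.CF.EndB
import Pool.Agent.H932R3.Collide

/-! The dimension of the space of forms of one collision bounds it for general collisions. -/

set_option autoImplicit false

namespace Pool.Agent.X157.E

open Polynomial Pool.Agent.H932R2 Pool.Agent.H932R3 Pool.Agent.TH545.CF

universe u v

/-- independence of monomials modulo the ideal passes from one collision to general collisions over
every field of the same characteristic -/
theorem transfer_fam {K : Type v} [Field K] {L : Type u} [Field L] (p : ℕ) [CharP K p]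
    [CharP L p] {r m N : ℕ} (e : Fin N → ℕ × ℕ) {c0 : K} {a0 : Fin r → K}
    (h : ∀ v : Fin N → K, (∑ s, v s • mon K (e s)) ∈ jetIdeal m c0 a0 → v = 0) :
    ∃ F : MvPolynomial (Fin (r + 1)) L, F ≠ 0 ∧
      ∀ (c : L) (a : Fin r → L), MvPolynomial.eval (Fin.cons c a : Fin (r + 1) → L) F ≠ 0 →
        ∀ v : Fin N → L, (∑ s, v s • mon L (e s)) ∈ jetIdeal m c a → v = 0 := by
  classical
  obtain ⟨b, hb⟩ := Pool.Agent.TH15.Nag.exists_rows
    (fun (q : EE r m) (s : Fin N) =>
      MvPolynomial.aeval (Fin.cons c0 a0 : Fin (r + 1) → K) (entC r q.1 (e s))) (by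
    intro v hv
    exact h v ((mem_jetIdeal _ v).2 hv))
  let D : MvPolynomial (Fin (r + 1)) ℤ :=
    (Matrix.of fun (j s : Fin N) => entC r (b j).1 (e s)).det
  have hDK : MvPolynomial.aeval (Fin.cons c0 a0 : Fin (r + 1) → K) D ≠ 0 := by
    intro h0
    apply hb
    rw [← h0]
    show _ = (MvPolynomial.aeval (Fin.cons c0 a0 : Fin (r + 1) → K)) (Matrix.det _)
    rw [AlgHom.map_det]
    rfl
  refine ⟨MvPolynomial.map (Int.castRingHom L) D, ?_, fun c a hc => ?_⟩
  · intro h1
    apply hDK
    have h2 : ∀ α, ((MvPolynomial.coeff α D : ℤ) : K) = 0 := by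
      intro α
      have h3 := congrArg (MvPolynomial.coeff α) h1
      rw [MvPolynomial.coeff_map, MvPolynomial.coeff_zero, eq_intCast,
        CharP.intCast_eq_zero_iff L p] at h3
      rw [CharP.intCast_eq_zero_iff K p]
      exact h3
    have h3 : MvPolynomial.map (Int.castRingHom K) D = 0 := by
      ext α
      rw [MvPolynomial.coeff_map, MvPolynomial.coeff_zero]
      exact h2 α
    have h4 : MvPolynomial.aeval (Fin.cons c0 a0 : Fin (r + 1) → K) D =
        MvPolynomial.eval (Fin.cons c0 a0 : Fin (r + 1) → K)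
          (MvPolynomial.map (Int.castRingHom K) D) := by
      rw [MvPolynomial.eval_map, MvPolynomial.aeval_def]
      congr 1
    rw [h4, h3, map_zero]
  · have hdet : (Matrix.of fun (j s : Fin N) =>
        MvPolynomial.aeval (Fin.cons c a : Fin (r + 1) → L)
          (entC r (b j).1 (e s))).det ≠ 0 := by
      intro h0
      apply hc
      have h4 : MvPolynomial.eval (Fin.cons c a : Fin (r + 1) → L)
          (MvPolynomial.map (Int.castRingHom L) D) =
          MvPolynomial.aeval (Fin.cons c a : Fin (r + 1) → L) D := by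
        rw [MvPolynomial.eval_map, MvPolynomial.aeval_def]
        congr 1
      rw [h4, ← h0]
      show (MvPolynomial.aeval (Fin.cons c a : Fin (r + 1) → L)) (Matrix.det _) = _
      rw [AlgHom.map_det]
      rfl
    intro v hv
    rw [mem_jetIdeal] at hv
    apply Matrix.eq_zero_of_mulVec_eq_zero hdet
    funext j
    rw [Matrix.mulVec, dotProduct, Pi.zero_apply]
    exact hv (b j)

/-- few forms: many monomials are independent modulo the ideal -/
theorem exists_fam {K : Type v} [Field K] {J : Ideal K[X][X]} {d e : ℕ}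
    (h : Module.finrank K ↥(mspan K (Tset d) ⊓ Submodule.restrictScalars K J) ≤ e) :
    ∃ (N : ℕ) (b : Fin N → ℕ × ℕ), (Tfin d).card ≤ N + e ∧ (∀ i, b i ∈ Tfin d) ∧
      ∀ v : Fin N → K, (∑ s, v s • mon K (b s)) ∈ J → v = 0 := by
  classical
  obtain ⟨J', hJ'⟩ : ∃ J' : Submodule K K[X][X], J' = Submodule.restrictScalars K J := ⟨_, rfl⟩
  let T : (Fin (Tfin d).card → K) →ₗ[K] (K[X][X] ⧸ J') := J'.mkQ.comp (coordMap K (Tfin d))
  have hT : ∀ w, T w = ∑ s, w s • J'.mkQ (mon K (enumM (Tfin d) s)) := by
    intro w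
    show J'.mkQ (coordMap K (Tfin d) w) = _
    rw [coordMap_apply, map_sum]
    refine Finset.sum_congr rfl fun s _ => ?_
    rw [map_smul]
  haveI : FiniteDimensional K (mspan K (Tset d)) := by
    rw [← coe_Tfin]
    exact FiniteDimensional.span_of_finite K ((Tfin d).finite_toSet.image _)
  have hker : Module.finrank K (LinearMap.ker T) ≤ e := by
    refine le_trans ?_ h
    let Φ : LinearMap.ker T →ₗ[K] ↥(mspan K (Tset d) ⊓ Submodule.restrictScalars K J) :=
      LinearMap.codRestrict _ ((coordMap K (Tfin d)).comp (LinearMap.ker T).subtype) (by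
        rintro ⟨w, hw⟩
        refine ⟨?_, ?_⟩
        · rw [← coe_Tfin]
          exact (mem_mspan_iff (Tfin d) _).2 ⟨w, rfl⟩
        · have h1 : J'.mkQ (coordMap K (Tfin d) w) = 0 := LinearMap.mem_ker.1 hw
          rw [Submodule.mkQ_apply, Submodule.Quotient.mk_eq_zero, hJ'] at h1
          exact h1)
    have hΦ : Function.Injective Φ := by
      rintro ⟨w, hw⟩ ⟨w', hw'⟩ h3
      apply Subtype.ext
      exact coordMap_inj (Tfin d) (congrArg Subtype.val h3)
    exact LinearMap.finrank_le_finrank_of_injective hΦ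
  obtain ⟨κ, a, ha, hsp, hli⟩ := exists_linearIndependent' K
    (fun s : Fin (Tfin d).card => J'.mkQ (mon K (enumM (Tfin d) s)))
  haveI : Finite κ := Finite.of_injective a ha
  haveI : Fintype κ := Fintype.ofFinite κ
  have hrange : LinearMap.range T = Submodule.span K (Set.range
      (fun s : Fin (Tfin d).card => J'.mkQ (mon K (enumM (Tfin d) s)))) := by
    apply le_antisymm
    · rintro _ ⟨w, rfl⟩
      rw [hT]
      exact Submodule.sum_mem _ fun s _ => Submodule.smul_mem _ _
        (Submodule.subset_span ⟨s, rfl⟩)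
    · rw [Submodule.span_le]
      rintro _ ⟨s, rfl⟩
      refine ⟨Pi.single s 1, ?_⟩
      rw [hT]
      simp [Pi.single_apply]
  have hcard : Module.finrank K (LinearMap.range T) = Fintype.card κ := by
    rw [hrange, ← hsp]
    exact finrank_span_eq_card hli
  have hrn := LinearMap.finrank_range_add_finrank_ker T
  rw [Module.finrank_fin_fun, hcard] at hrn
  refine ⟨Fintype.card κ, fun i => enumM (Tfin d) (a ((Fintype.equivFin κ).symm i)), by omega,
    fun i => enumM_mem _ _, fun v hv => ?_⟩
  have h1 := Fintype.linearIndependent_iff.1 hli (fun j => v (Fintype.equivFin κ j)) (by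
    rw [← (Fintype.equivFin κ).symm.sum_comp]
    simp only [Function.comp, Equiv.apply_symm_apply]
    have h2 : J'.mkQ (∑ s, v s • mon K (enumM (Tfin d) (a ((Fintype.equivFin κ).symm s)))) = 0 := by
      rw [Submodule.mkQ_apply, Submodule.Quotient.mk_eq_zero, hJ']
      exact hv
    rw [map_sum] at h2
    rw [← h2]
    refine Finset.sum_congr rfl fun s _ => ?_
    rw [map_smul])
  funext i
  have h2 := h1 ((Fintype.equivFin κ).symm i)
  rw [Equiv.apply_symm_apply] at h2
  exact h2

/-- many monomials independent modulo the ideal: few forms -/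
theorem dim_le_of {L : Type u} [Field L] {J : Ideal L[X][X]} {d e N : ℕ} {b : Fin N → ℕ × ℕ}
    (hb : ∀ i, b i ∈ Tfin d) (hN : (Tfin d).card ≤ N + e)
    (h : ∀ v : Fin N → L, (∑ s, v s • mon L (b s)) ∈ J → v = 0) :
    Module.finrank L ↥(mspan L (Tset d) ⊓ Submodule.restrictScalars L J) ≤ e := by
  classical
  haveI : FiniteDimensional L (mspan L (Tset d)) := by
    rw [← coe_Tfin]
    exact FiniteDimensional.span_of_finite L ((Tfin d).finite_toSet.image _)
  have hdim : Module.finrank L (mspan L (Tset d)) ≤ (Tfin d).card := by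
    have h1 : mspan L (Tset d) = LinearMap.range (coordMap L (Tfin d)) := by
      ext f
      rw [← coe_Tfin, mem_mspan_iff]
      rfl
    rw [h1]
    have h2 := LinearMap.finrank_range_le (coordMap L (Tfin d))
    rwa [Module.finrank_fin_fun] at h2
  obtain ⟨B, hB⟩ : ∃ B : Submodule L L[X][X], B = Submodule.span L
    (Set.range fun s : Fin N => mon L (b s)) := ⟨_, rfl⟩
  obtain ⟨A, hA⟩ : ∃ A : Submodule L L[X][X], A =
    mspan L (Tset d) ⊓ Submodule.restrictScalars L J := ⟨_, rfl⟩
  have hli : LinearIndependent L (fun s : Fin N => mon L (b s)) := by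
    rw [Fintype.linearIndependent_iff]
    intro v hv i
    have h1 := h v (by rw [hv]; exact J.zero_mem)
    rw [h1]
    rfl
  have hBc : Module.finrank L B = N := by
    rw [hB, finrank_span_eq_card hli, Fintype.card_fin]
  have hBle : B ≤ mspan L (Tset d) := by
    rw [hB, Submodule.span_le]
    rintro _ ⟨s, rfl⟩
    rw [← coe_Tfin]
    exact Submodule.subset_span ⟨_, hb s, rfl⟩
  have hAle : A ≤ mspan L (Tset d) := by rw [hA]; exact inf_le_left
  haveI : FiniteDimensional L A := Submodule.finiteDimensional_of_le hAle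
  haveI : FiniteDimensional L B := Submodule.finiteDimensional_of_le hBle
  have hinf : A ⊓ B = ⊥ := by
    rw [eq_bot_iff]
    rintro x ⟨h1, h2⟩
    rw [hB, SetLike.mem_coe, Submodule.mem_span_range_iff_exists_fun] at h2
    obtain ⟨v, rfl⟩ := h2
    rw [hA] at h1
    have h3 := h v h1.2
    rw [Submodule.mem_bot, h3]
    simp
  have h1 := Submodule.finrank_sup_add_finrank_inf_eq A B
  rw [hinf, finrank_bot, add_zero, hBc] at h1
  have h2 : Module.finrank L ↥(A ⊔ B) ≤ Module.finrank L (mspan L (Tset d)) :=
    Submodule.finrank_mono (sup_le hAle hBle)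
  rw [← hA]
  omega

/-- **Semicontinuity.**  The dimension of the space of forms of degree `d` of one collision bounds
the one of general collisions over every field of the same characteristic. -/
theorem transfer_dim {K : Type v} [Field K] {L : Type u} [Field L] (p : ℕ) [CharP K p]
    [CharP L p] {r m d e : ℕ} {c0 : K} {a0 : Fin r → K}
    (h : Module.finrank K ↥(MvPolynomial.homogeneousSubmodule (Fin 3) K d ⊓
      (Submodule.restrictScalars K (jetIdeal m c0 a0)).comap (deh K).toLinearMap) ≤ e) :
    ∃ F : MvPolynomial (Fin (r + 1)) L, F ≠ 0 ∧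
      ∀ (c : L) (a : Fin r → L), MvPolynomial.eval (Fin.cons c a : Fin (r + 1) → L) F ≠ 0 →
        Module.finrank L ↥(MvPolynomial.homogeneousSubmodule (Fin 3) L d ⊓
          (Submodule.restrictScalars L (jetIdeal m c a)).comap (deh L).toLinearMap) ≤ e := by
  rw [finrank_forms _ (Submodule.restrictScalars K (jetIdeal m c0 a0)) fun F _ => Iff.rfl] at h
  obtain ⟨N, b, h1, h2, h3⟩ := exists_fam h
  obtain ⟨F, hF, hF'⟩ := transfer_fam (L := L) p b h3
  refine ⟨F, hF, fun c a hc => ?_⟩
  rw [finrank_forms _ (Submodule.restrictScalars L (jetIdeal m c a)) fun F _ => Iff.rfl]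
  exact dim_le_of h2 h1 (hF' c a hc)

end Pool.Agent.X157.E
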