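import Pool.Agent.TH518.CW.TwoC
import Pool.Agent.X157.E.Row
import Pool.Agent.X157.E.Trans

/-! Collisions of eleven and of thirteen fat points: at most one form in the window. -/

set_option autoImplicit false

namespace Pool.Agent.X157.E

open Pool.Agent.TH716.CF Pool.Agent.TH518.CW Pool.Agent.H932R2 Pool.Agent.H932R3
  Pool.Agent.TH545.CF

universe u v

/-- The dimension of the space of forms. -/
noncomputable def jd {K : Type u} [Field K] {r : ℕ} (m : ℕ) (c : K) (a : Fin r → K) (d : ℕ) : ℕ :=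
  Module.finrank K ↥(MvPolynomial.homogeneousSubmodule (Fin 3) K d ⊓
    (Submodule.restrictScalars K (jetIdeal m c a)).comap (deh K).toLinearMap)

/-- the lower bound -/
theorem jd_ge {K : Type u} [Field K] {r : ℕ} (m : ℕ) (c : K) (a : Fin r → K) (d : ℕ) :
    (d + 2).choose 2 ≤ jd m c a d + r * (m + 1).choose 2 := by
  classical
  let T : (Fin (Tfin d).card → K) →ₗ[K] (EE r m → K) :=
    Matrix.mulVecLin (Matrix.of fun (q : EE r m) (s : Fin (Tfin d).card) =>
      MvPolynomial.aeval (Fin.cons c a : Fin (r + 1) → K) (entC r q.1 (enumM (Tfin d) s)))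
  have hT : ∀ w q, T w q = ∑ s, MvPolynomial.aeval (Fin.cons c a : Fin (r + 1) → K)
      (entC r q.1 (enumM (Tfin d) s)) * w s := fun w q => rfl
  haveI : FiniteDimensional K (mspan K (Tset d)) := by
    rw [← coe_Tfin]
    exact FiniteDimensional.span_of_finite K ((Tfin d).finite_toSet.image _)
  let Φ : LinearMap.ker T →ₗ[K]
      ↥(mspan K (Tset d) ⊓ Submodule.restrictScalars K (jetIdeal m c a)) :=
    LinearMap.codRestrict _ ((coordMap K (Tfin d)).comp (LinearMap.ker T).subtype) (by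
      rintro ⟨w, hw⟩
      refine ⟨?_, ?_⟩
      · rw [← coe_Tfin]
        exact (mem_mspan_iff (Tfin d) _).2 ⟨w, rfl⟩
      · show coordMap K (Tfin d) w ∈ jetIdeal m c a
        rw [coordMap_apply, mem_jetIdeal]
        intro q
        exact congrFun (LinearMap.mem_ker.1 hw) q)
  have hΦ : Function.Injective Φ := by
    rintro ⟨w, hw⟩ ⟨w', hw'⟩ h3
    apply Subtype.ext
    exact coordMap_inj (Tfin d) (congrArg Subtype.val h3)
  have h1 := LinearMap.finrank_le_finrank_of_injective hΦ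
  have h2 := LinearMap.finrank_range_add_finrank_ker T
  have h3 := Submodule.finrank_le (LinearMap.range T)
  rw [Module.finrank_fin_fun] at h2
  have hN := card_Tfin_choose d
  rw [Module.finrank_fintype_fun_eq_card, Fintype.card_coe, card_EE_eq'] at h3
  unfold jd
  rw [finrank_forms _ (Submodule.restrictScalars K (jetIdeal m c a)) fun F _ => Iff.rfl]
  omega

/-- at most one form -/
theorem coll_one {q v n : ℕ} {K σ : ℝ} (h : Num2 q v n K σ) {p : ℕ} (hp : p = 0 ∨ p.Prime)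
    {k : Type u} [Field k] [CharP k p] {m d : ℕ} (hlo : σ * m ≤ d)
    (hT : σ * d - (n - 3 * σ) / 2 < (n : ℝ) * m) :
    ∃ F : MvPolynomial (Fin (n + 1)) k, F ≠ 0 ∧
      ∀ (c : k) (a : Fin n → k), MvPolynomial.eval (Fin.cons c a : Fin (n + 1) → k) F ≠ 0 →
        jd m c a d ≤ 1 := by
  classical
  have hE := emp_one h hp hlo hT
  obtain ⟨t0, t1, _⟩ := num_tau h.num
  obtain ⟨L, _, _, c0, a0, lm, hlm⟩ := key_coll_v t0 t1 (chain2 h.num hE)
  refine transfer_dim (K := L) (L := k) p (c0 := c0) (a0 := a0) ?_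
  obtain ⟨U, hU⟩ : ∃ U : Submodule L (MvPolynomial (Fin 3) L), U =
    MvPolynomial.homogeneousSubmodule (Fin 3) L d ⊓
      (Submodule.restrictScalars L (jetIdeal m c0 a0)).comap (deh L).toLinearMap := ⟨_, rfl⟩
  rw [← hU]
  have hinj : Function.Injective (lm.domRestrict U) := by
    rw [← LinearMap.ker_eq_bot, LinearMap.ker_eq_bot']
    rintro ⟨P, hP⟩ h2
    apply Subtype.ext
    rw [hU] at hP
    exact hlm P hP.1 hP.2 h2
  have h2 := LinearMap.finrank_le_finrank_of_injective hinj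
  rwa [Module.finrank_fin_fun] at h2

/-- **The dichotomy.**  In all degrees the dimension is the expected one, or `3 ∣ d`,
`√n m < d`, `2 d + 3 < √n (2 m + 1)`, the expected dimension is zero and the dimension is one. -/
theorem coll_dich {q v n : ℕ} {K σ : ℝ} (h : Num2 q v n K σ) (hσ : σ = √(n : ℝ)) (hn : 10 ≤ n)
    (hn13 : n ≤ 13) {m : ℕ} (k : Type u) [Field k] :
    ∃ F : MvPolynomial (Fin (n + 1)) k, F ≠ 0 ∧
      ∀ (c : k) (a : Fin n → k), MvPolynomial.eval (Fin.cons c a : Fin (n + 1) → k) F ≠ 0 →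
        ∀ d : ℕ, jd m c a d = (d + 2).choose 2 - n * (m + 1).choose 2 ∨
          (3 ∣ d ∧ √(n : ℝ) * m < d ∧ 2 * (d : ℝ) + 3 < √(n : ℝ) * (2 * m + 1) ∧
            (d + 2).choose 2 ≤ n * (m + 1).choose 2 ∧ jd m c a d = 1) := by
  classical
  obtain ⟨p, hp⟩ := CharP.exists k
  have hp' : p = 0 ∨ p.Prime := (CharP.char_is_prime_or_zero k p).symm
  obtain ⟨F1, hF1, hF1'⟩ := two_coll (m := m) h hσ hn k
  have hσ3 := h.s3
  have hσ0 : 0 < σ := by linarith
  have hσ4 : σ < 4 := by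
    have h1 := h.sg
    have h2 : (n : ℝ) ≤ 13 := by exact_mod_cast hn13
    nlinarith
  -- the only degree in the window
  obtain ⟨d1, hd1⟩ : ∃ d1 : ℕ, d1 = ⌊σ * m⌋₊ + 1 := ⟨_, rfl⟩
  have huniq : ∀ d : ℕ, σ * m < d → 2 * (d : ℝ) + 3 < σ * (2 * m + 1) → d = d1 := by
    intro d h1 h2
    have h3 : ⌊σ * m⌋₊ < d := (Nat.floor_lt (by positivity)).2 h1
    have h4 : (d : ℝ) - 1 < σ * m := by
      have : σ * (2 * (m : ℝ) + 1) = 2 * (σ * m) + σ := by ring
      linarith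
    have h5 : d - 1 ≤ ⌊σ * m⌋₊ := by
      apply Nat.le_floor
      rw [Nat.cast_sub (by omega)]
      push_cast
      exact h4.le
    omega
  have hw : ∃ F : MvPolynomial (Fin (n + 1)) k, F ≠ 0 ∧
      ∀ (c : k) (a : Fin n → k), MvPolynomial.eval (Fin.cons c a : Fin (n + 1) → k) F ≠ 0 →
        (σ * m < d1 → 2 * (d1 : ℝ) + 3 < σ * (2 * m + 1) → jd m c a d1 ≤ 1) := by
    by_cases hw1 : σ * m < d1 ∧ 2 * (d1 : ℝ) + 3 < σ * (2 * m + 1)
    · have hT : σ * d1 - (n - 3 * σ) / 2 < (n : ℝ) * m := by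
        rw [← not_le, thr h.sg h.s3, not_le]
        exact hw1.2
      obtain ⟨F, hF, hF'⟩ := coll_one h hp' (k := k) hw1.1.le hT
      exact ⟨F, hF, fun c a hc _ _ => hF' c a hc⟩
    · exact ⟨1, one_ne_zero, fun c a _ h1 h2 => absurd ⟨h1, h2⟩ hw1⟩
  obtain ⟨F2, hF2, hF2'⟩ := hw
  refine ⟨F1 * F2, mul_ne_zero hF1 hF2, fun c a hc d => ?_⟩
  rw [map_mul] at hc
  have c1 := hF1' c a (left_ne_zero_of_mul hc)
  have c2 := hF2' c a (right_ne_zero_of_mul hc)
  by_cases hd : ¬ 3 ∣ d ∨ (d : ℝ) ≤ √(n : ℝ) * m ∨ √(n : ℝ) * (2 * m + 1) ≤ 2 * d + 3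
  · exact Or.inl (c1 d hd)
  push Not at hd
  obtain ⟨g1, g2, g3⟩ := hd
  rw [← hσ] at g2 g3
  have hdd := huniq d g2 g3
  have hle : jd m c a d ≤ 1 := by
    rw [hdd] at g2 g3 ⊢
    exact c2 g2 g3
  have hge := jd_ge m c a d
  -- the number of conditions
  have hnum : (d + 2).choose 2 ≤ n * (m + 1).choose 2 + 1 := by
    have e1 : 2 * ((d + 2).choose 2 : ℝ) = (d + 2) * (d + 1) := by
      have := Nat.cast_choose_two ℝ (d + 2)
      rw [this]; push_cast; ring
    have e2 : 2 * ((m + 1).choose 2 : ℝ) = (m + 1) * m := by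
      have := Nat.cast_choose_two ℝ (m + 1)
      rw [this]; push_cast; ring
    have e3 : (2 * (d : ℝ) + 3) ^ 2 < (σ * (2 * m + 1)) ^ 2 := by
      have : 0 ≤ 2 * (d : ℝ) + 3 := by positivity
      exact pow_lt_pow_left₀ g3 this (by norm_num)
    rw [mul_pow, h.sg] at e3
    have h13 : (n : ℝ) ≤ 13 := by exact_mod_cast hn13
    have h4 : ((d + 2).choose 2 : ℝ) < n * (m + 1).choose 2 + 2 := by nlinarith
    have h5 : (d + 2).choose 2 < n * (m + 1).choose 2 + 2 := by exact_mod_cast h4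
    omega
  rcases Nat.lt_or_ge (n * (m + 1).choose 2) ((d + 2).choose 2) with h1 | h1
  · left
    omega
  · rcases Nat.eq_zero_or_pos (jd m c a d) with h2 | h2
    · left
      omega
    · right
      refine ⟨g1, by rw [← hσ]; exact g2, by rw [← hσ]; exact g3, h1, by omega⟩

theorem coll11 {m : ℕ} (k : Type u) [Field k] :
    ∃ F : MvPolynomial (Fin (11 + 1)) k, F ≠ 0 ∧
      ∀ (c : k) (a : Fin 11 → k), MvPolynomial.eval (Fin.cons c a : Fin (11 + 1) → k) F ≠ 0 →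
        ∀ d : ℕ, jd m c a d = (d + 2).choose 2 - 11 * (m + 1).choose 2 ∨
          (3 ∣ d ∧ √((11 : ℕ) : ℝ) * m < d ∧ 2 * (d : ℝ) + 3 < √((11 : ℕ) : ℝ) * (2 * m + 1) ∧
            (d + 2).choose 2 ≤ 11 * (m + 1).choose 2 ∧ jd m c a d = 1) :=
  coll_dich num2_11 (by push_cast; rfl) (by norm_num) (by norm_num) k

theorem coll13 {m : ℕ} (k : Type u) [Field k] :
    ∃ F : MvPolynomial (Fin (13 + 1)) k, F ≠ 0 ∧
      ∀ (c : k) (a : Fin 13 → k), MvPolynomial.eval (Fin.cons c a : Fin (13 + 1) → k) F ≠ 0 →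
        ∀ d : ℕ, jd m c a d = (d + 2).choose 2 - 13 * (m + 1).choose 2 ∨
          (3 ∣ d ∧ √((13 : ℕ) : ℝ) * m < d ∧ 2 * (d : ℝ) + 3 < √((13 : ℕ) : ℝ) * (2 * m + 1) ∧
            (d + 2).choose 2 ≤ 13 * (m + 1).choose 2 ∧ jd m c a d = 1) :=
  coll_dich num2_13 (by push_cast; rfl) (by norm_num) (by norm_num) k

end Pool.Agent.X157.E
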